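import Pool.Agent.N299.DT.Stm2
import Pool.Agent.N299.Base
import Pool.Agent.H308R2.ZS.Closed
import Pool.Agent.H930R2.ZS_ZGEN
import Pool.Agent.H348R3.ZS_CEN
import Pool.Agent.H715Z.ZS_MSW
import Pool.Agent.H715Z.ZS_FIB01
import Pool.Agent.H715Z.ZS_FIBM
import Pool.Agent.H930R2.ZS_WU

/-!
# Universal property of the dimension drop algebras from the fibres
-/

set_option autoImplicit false

open scoped BoundedContinuousFunction Topology Matrix.Norms.L2Operator
open Filter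

noncomputable section

namespace Pool.Agent.N152.DT

open Pool.Agent.H308R2.ZS (dimDrop MM Vals Ix)
open Pool.Agent.N299 Pool.Agent.N299.DT

theorem zgen : Pool.Agent.H308R2.ZS.S_ZGEN :=
  Pool.Agent.H308R2.ZS.T_ZGEN.t_ZGEN
    (Pool.Agent.H308R2.ZS.T_CEN.t_CEN Pool.Agent.H308R2.ZS.T_WU.t_WU)
    Pool.Agent.H308R2.ZS.T_MSW.t_MSW
    (Pool.Agent.H308R2.ZS.T_FIB01.t_FIB01 Pool.Agent.H308R2.ZS.T_WU.t_WU)
    (Pool.Agent.H308R2.ZS.T_FIBM.t_FIBM Pool.Agent.H308R2.ZS.T_WU.t_WU)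

/-- A star homomorphism from its graph on generators. -/
theorem graph {D E : Type} [CStarAlgebra D] [CStarAlgebra E] {J : Type} (x : J → D) (y : J → E)
    (hgen : ∀ (a : D) (ε : ℝ), 0 < ε → ∃ d ∈ StarAlgebra.adjoin ℂ (Set.range x), ‖a - d‖ < ε)
    (hb : ∀ b : E, (∃ (F : Type) (_ : CStarAlgebra F) (π : E →⋆ₐ[ℂ] F) (σ : D →⋆ₐ[ℂ] F),
      (∀ i, σ (x i) = π (y i)) ∧ ‖b‖ ≤ ‖π b‖) ∨ b = 0) :
    ∃ σ : D →⋆ₐ[ℂ] E, ∀ i, σ (x i) = y i := by
  -- the graph
  let X : Set (D × E) := Set.range fun i => (x i, y i)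
  let G0 : StarSubalgebra ℂ (D × E) := StarAlgebra.adjoin ℂ X
  have hX : X ⊆ (G0 : Set (D × E)) := StarAlgebra.subset_adjoin ℂ X
  -- the key inequality
  have hle : ∀ g ∈ G0, ‖g.2‖ ≤ ‖g.1‖ := by
    intro g hg
    rcases hb g.2 with ⟨F, _, π, σ, hσ, hb⟩ | h0
    · have heq : G0 ≤ StarAlgHom.equalizer (σ.comp (StarAlgHom.fst ℂ D E))
          (π.comp (StarAlgHom.snd ℂ D E)) := by
        refine StarAlgebra.adjoin_le ?_
        rintro x ⟨p, rfl⟩
        exact hσ p
      have h3 : σ g.1 = π g.2 := heq hg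
      calc ‖g.2‖ ≤ ‖π g.2‖ := hb
        _ = ‖σ g.1‖ := by rw [h3]
        _ ≤ ‖g.1‖ := NonUnitalStarAlgHom.norm_apply_le (σ : D →⋆ₙₐ[ℂ] F) g.1
    · rw [h0, norm_zero]
      exact norm_nonneg _
  -- the closure of the graph
  let G : StarSubalgebra ℂ (D × E) := G0.topologicalClosure
  have hG0 : G0 ≤ G := StarSubalgebra.le_topologicalClosure _
  have hGc : IsClosed (G : Set (D × E)) := StarSubalgebra.isClosed_topologicalClosure _
  have hle' : ∀ g ∈ G, ‖g.2‖ ≤ ‖g.1‖ := by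
    have hcl : IsClosed {g : D × E | ‖g.2‖ ≤ ‖g.1‖} :=
      isClosed_le (continuous_norm.comp continuous_snd) (continuous_norm.comp continuous_fst)
    intro g hg
    have h1 : (G : Set (D × E)) ⊆ {g : D × E | ‖g.2‖ ≤ ‖g.1‖} :=
      closure_minimal hle hcl
    exact h1 hg
  have huniq : ∀ {a : D} {b b' : E}, (a, b) ∈ G → (a, b') ∈ G → b = b' := by
    intro a b b' h h'
    have h1 := hle' _ (sub_mem h h')
    have h2 : ‖b - b'‖ ≤ ‖a - a‖ := h1
    rw [sub_self, norm_zero] at h2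
    exact sub_eq_zero.1 (norm_le_zero_iff.1 h2)
  -- the first projection is surjective
  have hsurj : ∀ a : D, ∃ b : E, (a, b) ∈ G := by
    intro a
    have hadj : StarAlgebra.adjoin ℂ (Set.range x) ≤ G0.map (StarAlgHom.fst ℂ D E) := by
      refine StarAlgebra.adjoin_le ?_
      rintro _ ⟨p, rfl⟩
      exact ⟨(x p, y p), hX ⟨p, rfl⟩, rfl⟩
    have hseq : ∀ m : ℕ, ∃ g ∈ G0, ‖a - g.1‖ < 1 / ((m : ℝ) + 1) := by
      intro m
      obtain ⟨y, hy, hym⟩ := hgen a (1 / ((m : ℝ) + 1)) (by positivity)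
      obtain ⟨g, hg, hgy⟩ := hadj hy
      refine ⟨g, hg, ?_⟩
      have h1 : g.1 = y := hgy
      rw [h1]
      exact hym
    choose g hg hga using hseq
    have hlim : Tendsto (fun m => (g m).1) atTop (𝓝 a) := by
      rw [tendsto_iff_norm_sub_tendsto_zero]
      refine squeeze_zero (fun m => norm_nonneg _) (fun m => ?_)
        tendsto_one_div_add_atTop_nhds_zero_nat
      rw [norm_sub_rev]
      exact (hga m).le
    have hcau : CauchySeq fun m => (g m).2 := by
      have h1 := hlim.cauchySeq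
      rw [Metric.cauchySeq_iff] at h1 ⊢
      intro ε hε
      obtain ⟨N, hN⟩ := h1 ε hε
      refine ⟨N, fun m hm k hk => ?_⟩
      have h2 := hN m hm k hk
      rw [dist_eq_norm] at h2 ⊢
      exact (hle _ (sub_mem (hg m) (hg k))).trans_lt h2
    obtain ⟨b, hb⟩ := cauchySeq_tendsto_of_complete hcau
    refine ⟨b, hGc.mem_of_tendsto (hlim.prodMk_nhds hb) (Eventually.of_forall fun m => hG0 ?_)⟩
    exact hg m
  choose σ hσ using hsurj
  refine ⟨{ toFun := σ
            map_one' := huniq (hσ 1) (one_mem G)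
            map_mul' := fun x y => huniq (hσ (x * y)) (mul_mem (hσ x) (hσ y))
            map_zero' := huniq (hσ 0) (zero_mem G)
            map_add' := fun x y => huniq (hσ (x + y)) (add_mem (hσ x) (hσ y))
            commutes' := fun c => huniq (hσ _) (algebraMap_mem G c)
            map_star' := fun x => huniq (hσ (star x)) (star_mem (hσ x)) }, fun i => ?_⟩
  exact huniq (hσ _) (hG0 (hX ⟨i, rfl⟩))

/-- The relations pass to images. -/
theorem RV.map' {E F : Type} [CStarAlgebra E] [CStarAlgebra F] {n : ℕ}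
    {φ : Fin (n + 1) → Fin (n + 1) → E} {v : E} (h : RV φ v) (π : E →⋆ₐ[ℂ] F) :
    RV (fun i j => π (φ i j)) (π v) where
  st i j := by rw [← map_star, h.st]
  mul i j l := by
    rw [← map_mul, h.mul, map_mul, map_sum]
  orth i j k l hjk := by rw [← map_mul, h.orth i j k l hjk, map_zero]
  pos i := (h.pos i).map π
  vv := by rw [← map_star, ← map_mul, h.vv, map_sub, map_one, map_sum]
  ve := by rw [← map_mul, h.ve]

theorem zel_map {E F : Type} [CStarAlgebra E] [CStarAlgebra F] {n : ℕ}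
    (φ : Fin (n + 1) → Fin (n + 1) → E) (v : E) (π : E →⋆ₐ[ℂ] F) :
    zel (fun i j => π (φ i j)) (π v) = π (zel φ v) := by
  unfold zel
  simp only [map_add, map_sum, map_mul, map_star]

/-- The case of a central `zel`. -/
theorem central_case (hCX : S_CX) (hFB0 : S_FB0) (hFBM : S_FBM) (hFB1 : S_FB1) (hRVZ : S_RVZ)
    {n : ℕ} {E : Type} [CStarAlgebra E] {φ : Fin (n + 1) → Fin (n + 1) → E} {v : E}
    (hRV : RV φ v) (hc : ∀ y, zel φ v * y = y * zel φ v)
    {φ0 : Fin (n + 1) → Fin (n + 1) → dimDrop n} {k0 : Fin (n + 1) → dimDrop n}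
    {v0 : dimDrop n} (hV : Vals n φ0 k0 v0) :
    ∃ σ : dimDrop n →⋆ₐ[ℂ] E, (∀ i j, σ (φ0 i j) = φ i j) ∧ σ v0 = v := by
  have hcl : IsClosed (dimDrop n : Set C(unitInterval, MM n)) :=
    Pool.Agent.H308R2.ZS.dimDrop_closed n
  let x : Option (Fin (n + 1) × Fin (n + 1)) → dimDrop n := fun o =>
    Option.elim o v0 fun p => φ0 p.1 p.2
  let y : Option (Fin (n + 1) × Fin (n + 1)) → E := fun o => Option.elim o v fun p => φ p.1 p.2
  have hrange : Set.range x =
      (Set.range fun p : Fin (n + 1) × Fin (n + 1) => φ0 p.1 p.2) ∪ {v0} := by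
    ext z
    constructor
    · rintro ⟨(_ | p), rfl⟩
      · exact Or.inr rfl
      · exact Or.inl ⟨p, rfl⟩
    · rintro (⟨p, rfl⟩ | rfl)
      · exact ⟨some p, rfl⟩
      · exact ⟨none, rfl⟩
  have hkey : ∀ b : E, (∃ (F : Type) (_ : CStarAlgebra F) (π : E →⋆ₐ[ℂ] F)
      (σ : dimDrop n →⋆ₐ[ℂ] F), (∀ i, σ (x i) = π (y i)) ∧ ‖b‖ ≤ ‖π b‖) ∨ b = 0 := by
    intro b
    obtain ⟨t, F, _, π, hπ, hb⟩ := hCX E (zel φ v) b (hRVZ n E φ v hRV).1 hc
    by_cases h1 : (1 : F) = 0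
    · right
      have h2 : ‖π b‖ = 0 := by
        rw [norm_eq_zero, ← mul_one (π b), h1, mul_zero]
      rw [h2] at hb
      exact norm_le_zero_iff.1 hb
    left
    have hRV' : RV (fun i j => π (φ i j)) (π v) := RV.map' hRV π
    have hz : zel (fun i j => π (φ i j)) (π v) = (t : ℂ) • (1 : F) := by
      rw [zel_map, hπ]
    obtain ⟨ht0, ht1⟩ := (hRVZ n F _ _ hRV').2.2.2 t h1 hz
    have hσ : ∃ σ : dimDrop n →⋆ₐ[ℂ] F, (∀ i j, σ (φ0 i j) = π (φ i j)) ∧ σ v0 = π v := by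
      rcases ht0.eq_or_lt with h0 | h0
      · rw [← h0] at hz
        exact hFB0 n F _ _ hRV' hz φ0 k0 v0 hV
      rcases ht1.eq_or_lt with h1 | h1
      · rw [h1] at hz
        exact hFB1 n F _ _ hRV' hz φ0 k0 v0 hV
      exact hFBM n t h0 h1 F _ _ hRV' hz φ0 k0 v0 hV
    obtain ⟨σ, hσ1, hσ2⟩ := hσ
    refine ⟨F, inferInstance, π, σ, ?_, hb⟩
    rintro (_ | p)
    · exact hσ2
    · exact hσ1 p.1 p.2
  obtain ⟨σ, hσ⟩ := graph (D := dimDrop n) (E := E) x y (fun a ε hε => by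
    rw [hrange]
    exact zgen n φ0 k0 v0 hV a ε hε) hkey
  exact ⟨σ, fun i j => hσ (some (i, j)), hσ none⟩

theorem t_UNIV (hCX : S_CX) (hFB0 : S_FB0) (hFBM : S_FBM) (hFB1 : S_FB1) (hRVZ : S_RVZ) :
    S_UNIV := by
  intro n E _ φ v hRV φ0 k0 v0 hV
  let X : Set E := (Set.range fun p : Fin (n + 1) × Fin (n + 1) => φ p.1 p.2) ∪ {v}
  let E0 : StarSubalgebra ℂ E := (StarAlgebra.adjoin ℂ X).topologicalClosure
  have hcl : IsClosed (E0 : Set E) := StarSubalgebra.isClosed_topologicalClosure _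
  have hX : ∀ x ∈ X, x ∈ E0 := fun x hx =>
    StarSubalgebra.le_topologicalClosure _ (StarAlgebra.subset_adjoin ℂ X hx)
  have hφ : ∀ i j, φ i j ∈ E0 := fun i j => hX _ (Or.inl ⟨(i, j), rfl⟩)
  have hv : v ∈ E0 := hX _ (Or.inr rfl)
  let φ' : Fin (n + 1) → Fin (n + 1) → E0 := fun i j => ⟨φ i j, hφ i j⟩
  let v' : E0 := ⟨v, hv⟩
  have hinj : Function.Injective E0.subtype := Subtype.val_injective
  have hsub : ∀ i j, E0.subtype (φ' i j) = φ i j := fun i j => rfl
  have hsubv : E0.subtype v' = v := rfl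
  have hRV' : RV φ' v' := by
    refine ⟨fun i j => ?_, fun i j l => ?_, fun i j k l hjk => ?_, fun i => ?_, ?_, ?_⟩
    · apply hinj
      rw [map_star, hsub, hsub, hRV.st]
    · apply hinj
      rw [map_mul, map_mul, map_sum, hsub, hsub, hsub, hRV.mul]
      rfl
    · apply hinj
      rw [map_mul, map_zero, hsub, hsub, hRV.orth i j k l hjk]
    · refine pos_of_map_one E0.subtype hinj ?_
      exact hRV.pos i
    · apply hinj
      rw [map_mul, map_star, map_sub, map_sum, map_one, hsubv, hRV.vv]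
      rfl
    · apply hinj
      rw [map_mul, hsub, hsubv, hRV.ve]
  have hzel : E0.subtype (zel φ' v') = zel φ v := by
    rw [← zel_map]
    rfl
  obtain ⟨hz1, hz2, hz3, _⟩ := hRVZ n E φ v hRV
  -- `zel` commutes with everything in `E0`
  have hcomm : ∀ y ∈ E0, zel φ v * y = y * zel φ v := by
    have h1 : (StarAlgebra.adjoin ℂ X : Set E) ⊆ {y | zel φ v * y = y * zel φ v} := by
      have h2 : StarAlgebra.adjoin ℂ X ≤ StarSubalgebra.centralizer ℂ {zel φ v} := by
        refine StarAlgebra.adjoin_le ?_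
        rintro x (⟨p, rfl⟩ | rfl)
        · rw [SetLike.mem_coe, StarSubalgebra.mem_centralizer_iff]
          intro g hg
          rw [Set.mem_singleton_iff] at hg
          subst hg
          rw [hz1]
          exact ⟨hz2 p.1 p.2, hz2 p.1 p.2⟩
        · rw [SetLike.mem_coe, StarSubalgebra.mem_centralizer_iff]
          intro g hg
          rw [Set.mem_singleton_iff] at hg
          subst hg
          rw [hz1]
          exact ⟨hz3, hz3⟩
      intro y hy
      exact ((StarSubalgebra.mem_centralizer_iff ℂ).1 (h2 hy) _ rfl).1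
    have h3 : IsClosed {y : E | zel φ v * y = y * zel φ v} :=
      isClosed_eq (continuous_const.mul continuous_id) (continuous_id.mul continuous_const)
    intro y hy
    exact closure_minimal h1 h3 hy
  have hc : ∀ y : E0, zel φ' v' * y = y * zel φ' v' := by
    intro y
    apply hinj
    rw [map_mul, map_mul, hzel]
    exact hcomm _ y.2
  obtain ⟨σ, hσ1, hσ2⟩ := central_case hCX hFB0 hFBM hFB1 hRVZ hRV' hc hV
  refine ⟨E0.subtype.comp σ, fun i j => ?_, ?_, fun B hB hBφ hBv x => ?_⟩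
  · rw [StarAlgHom.comp_apply, hσ1]
    exact hsub i j
  · rw [StarAlgHom.comp_apply, hσ2]
    exact hsubv
  · have h1 : E0 ≤ B := by
      refine StarSubalgebra.topologicalClosure_minimal (StarAlgebra.adjoin_le ?_) hB
      rintro y (⟨p, rfl⟩ | rfl)
      · exact hBφ p.1 p.2
      · exact hBv
    exact h1 (σ x).2

end Pool.Agent.N152.DT
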